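import Mathlib

open MeasureTheory ProbabilityTheory Set Filter Topology

namespace Pool.Agent.Results.MP_c7609e_pr.Counter

/-- Completely monotone on `[0, ∞)`. -/
def CM (L : ℝ → ℝ) : Prop :=
  ContinuousOn L (Ici 0) ∧ (∀ n : ℕ, ContDiffOn ℝ n L (Ioi 0)) ∧
    ∀ (n : ℕ) (s : ℝ), 0 < s → 0 ≤ (-1) ^ n * iteratedDeriv n L s

/-- The class `𝓛`. -/
def InL (L : ℝ → ℝ) : Prop :=
  CM L ∧ (∀ s, 0 ≤ s → 0 < L s ∧ L s ≤ 1) ∧ InjOn L (Ici 0) ∧ L 0 = 1

/-- `Φ_L(x, y) = L(L⁻¹ x + L⁻¹ y)`. -/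
noncomputable def Phi (L : ℝ → ℝ) (x y : ℝ) : ℝ :=
  L (Function.invFunOn L (Ici 0) x + Function.invFunOn L (Ici 0) y)

/-- The class `𝓒`. -/
def InC (ψ : ℝ → ℝ) : Prop :=
  ∃ (σ : ℝ) (ν : Measure ℝ), ν (Iic 0) = 0 ∧ ∫⁻ t, ENNReal.ofReal (min 1 (t ^ 2)) ∂ν < ⊤ ∧
    ∀ ξ, ψ ξ = σ ^ 2 * ξ ^ 2 / 2 + ∫ t, (1 - Real.cos (t * ξ)) ∂ν

/-- Property (R). -/
def PropR (L : ℝ → ℝ) : Prop :=
  ∀ a : ℝ, 0 < a → ∀ (μ₁ μ₂ : Measure ℝ) [IsProbabilityMeasure μ₁] [IsProbabilityMeasure μ₂]
    (f₁ f₂ : ℝ → ℝ), (∀ ξ, charFun μ₁ ξ = f₁ ξ) → (∀ ξ, charFun μ₂ ξ = f₂ ξ) →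
    (∀ ξ, f₁ ξ ∈ L '' Ici 0) → (∀ ξ, f₂ ξ ∈ L '' Ici 0) →
    (∀ ξ, Phi L (f₁ ξ) (f₂ ξ) = L (a * ξ ^ 2)) →
    ∃ η₁ η₂, InC η₁ ∧ InC η₂ ∧ (∀ ξ, f₁ ξ = L (η₁ ξ)) ∧ ∀ ξ, f₂ ξ = L (η₂ ξ)

lemma atom (μ : Measure ℝ) [IsProbabilityMeasure μ] (f : ℝ → ℝ) (hf : ∀ ξ, charFun μ ξ = f ξ)
    (h : ∀ ξ, 1 / 2 ≤ f ξ) : 1 / 2 ≤ μ.real {0} := by
  have h1 : ∀ t : ℝ, 1 / 2 ≤ ∫ x, Real.exp (-((t * x) ^ 2 / 2)) ∂μ := by
    intro t
    have e1 : ∫ x, charFun (gaussianReal 0 1) (t * x) ∂μ
        = ∫ ξ, charFun μ (t * ξ) ∂(gaussianReal 0 1) := by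
      simp only [charFun_apply_real]
      rw [integral_integral_swap]
      · congr 1; funext ξ; congr 1; funext x; congr 1; push_cast; ring
      · refine Integrable.of_bound (by fun_prop) 1 (ae_of_all _ fun p => ?_)
        have : ((t * p.1 : ℝ) : ℂ) * p.2 * Complex.I = ((t * p.1 * p.2 : ℝ) : ℂ) * Complex.I := by
          push_cast; ring
        simp only [Function.uncurry]
        rw [this, Complex.norm_exp_ofReal_mul_I]
    have e2 : ∀ x : ℝ, charFun (gaussianReal 0 1) (t * x)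
        = ((Real.exp (-((t * x) ^ 2 / 2)) : ℝ) : ℂ) := by
      intro x; rw [charFun_gaussianReal]; push_cast; simp
    simp only [e2, hf, integral_ofReal, integral_complex_ofReal] at e1
    have e3 := Complex.ofReal_injective e1
    rw [e3]
    have hfc : f = fun ξ => (charFun μ ξ).re := by funext ξ; simp [hf]
    have hi : Integrable (fun ξ => f (t * ξ)) (gaussianReal 0 1) := by
      refine Integrable.of_bound ?_ 1 (ae_of_all _ fun ξ => ?_)
      · rw [hfc]
        exact (Complex.measurable_re.comp (measurable_charFun.comp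
          (measurable_const_mul t))).aestronglyMeasurable
      · have := norm_charFun_le_one (μ := μ) (t * ξ)
        rwa [hf, Complex.norm_real] at this
    have := integral_mono (integrable_const (1 / 2 : ℝ)) hi (fun ξ => h (t * ξ))
    simpa using this
  have h2 : Tendsto (fun n : ℕ => ∫ x, Real.exp (-(((n : ℝ) * x) ^ 2 / 2)) ∂μ) atTop
      (𝓝 (∫ x, ({0} : Set ℝ).indicator (fun _ => (1 : ℝ)) x ∂μ)) := by
    refine tendsto_integral_of_dominated_convergence (fun _ => 1) (fun n => by fun_prop)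
      (integrable_const _) (fun n => ae_of_all _ fun x => ?_) (ae_of_all _ fun x => ?_)
    · rw [Real.norm_of_nonneg (Real.exp_pos _).le, Real.exp_le_one_iff]
      have := sq_nonneg ((n : ℝ) * x); linarith
    · by_cases hx : x = 0
      · simp [hx]
      · rw [indicator_of_notMem (by simpa using hx)]
        refine Real.tendsto_exp_neg_atTop_nhds_zero.comp ?_
        have hx2 : 0 < x ^ 2 / 2 := by positivity
        have := ((tendsto_pow_atTop (two_ne_zero)).comp
          (tendsto_natCast_atTop_atTop (R := ℝ))).atTop_mul_const hx2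
        refine this.congr fun n => ?_
        simp only [Function.comp]; ring
  rw [integral_indicator (measurableSet_singleton _)] at h2
  simp only [integral_const, smul_eq_mul, mul_one, measureReal_restrict_apply_univ] at h2
  exact ge_of_tendsto' h2 fun n => h1 n

lemma split (μ : Measure ℝ) [IsProbabilityMeasure μ] (f : ℝ → ℝ) (hf : ∀ ξ, charFun μ ξ = f ξ)
    (h : ∀ ξ, 1 / 2 ≤ f ξ) :
    ∃ ν : Measure ℝ, IsProbabilityMeasure ν ∧ ∀ ξ, charFun ν ξ = ((2 * f ξ - 1 : ℝ) : ℂ) := by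
  have h0 := atom μ f hf h
  have hle : Measure.dirac (0 : ℝ) ≤ μ + μ := by
    rw [Measure.le_iff]
    intro s hs
    by_cases h0s : (0 : ℝ) ∈ s
    · rw [Measure.dirac_apply_of_mem h0s, Measure.add_apply]
      have h1 : μ.real {0} ≤ μ.real s := measureReal_mono (by simpa using h0s)
      rw [← ofReal_measureReal (μ := μ) (s := s), ← ENNReal.ofReal_add measureReal_nonneg
        measureReal_nonneg, ENNReal.one_le_ofReal]
      linarith
    · simp [Measure.dirac_apply' _ hs, h0s]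
  have hc := Measure.sub_add_cancel_of_le hle
  set ν := μ + μ - Measure.dirac (0 : ℝ)
  have hp : IsProbabilityMeasure ν := ⟨by
    have := congrArg (fun m : Measure ℝ => m univ) hc
    simp only [Measure.add_apply, measure_univ] at this
    exact (ENNReal.add_left_inj ENNReal.one_ne_top).1 this⟩
  refine ⟨ν, hp, fun ξ => ?_⟩
  have hi : ∀ (m : Measure ℝ) [IsFiniteMeasure m],
      Integrable (fun x : ℝ => Complex.exp (ξ * x * Complex.I)) m := by
    intro m _
    refine Integrable.of_bound (by fun_prop) 1 (ae_of_all _ fun x => ?_)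
    rw [← Complex.ofReal_mul, Complex.norm_exp_ofReal_mul_I]
  have e := congrArg (fun m : Measure ℝ => charFun m ξ) hc
  simp only [charFun_apply_real] at e
  rw [integral_add_measure (hi _) (hi _), integral_add_measure (hi _) (hi _),
    ← charFun_apply_real, ← charFun_apply_real, ← charFun_apply_real, charFun_dirac, hf] at e
  simp at e
  push_cast
  linear_combination e

lemma one_le_mgf (ν : Measure ℝ) [IsProbabilityMeasure ν] (g : ℝ → ℝ)
    (hg : ∀ ξ, charFun ν ξ = g ξ) (hi : ∀ t : ℝ, Integrable (fun x => Real.exp (t * x)) ν)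
    (t : ℝ) : 1 ≤ mgf id ν t := by
  have hs : ν.map (fun x => (-1 : ℝ) * x) = ν := by
    refine Measure.ext_of_charFun (funext fun ξ => ?_)
    rw [charFun_map_mul, neg_one_mul, charFun_neg, hg, Complex.conj_ofReal]
  have e : ∫ x, Real.exp (t * x) ∂ν = ∫ x, Real.exp (-t * x) ∂ν := by
    conv_lhs => rw [← hs]
    rw [integral_map (by fun_prop) (by fun_prop)]
    congr 1; funext x; congr 1; ring
  have := integral_mono (integrable_const (2 : ℝ)) ((hi t).add (hi (-t))) (fun x => by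
    have h1 := Real.add_one_le_exp (t * x)
    have h2 := Real.add_one_le_exp (-t * x)
    simp only [Pi.add_apply]; linarith)
  rw [integral_add' (hi t) (hi (-t)), ← e] at this
  simp only [integral_const, probReal_univ, smul_eq_mul, one_mul] at this
  simp only [mgf, id]; linarith

lemma quad (F : ℂ → ℂ) (hF : Differentiable ℂ F) (h0 : F 0 = 1) (hne : ∀ z, F z ≠ 0) (a : ℝ)
    (ha : 0 < a) (hb : ∀ z, ‖F z‖ ≤ Real.exp (a * ‖z‖ ^ 2)) :
    ∃ c : ℂ, ∀ z, F z = Complex.exp (c * z ^ 2) := by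
  have hd : Differentiable ℂ (fun z => deriv F z / F z) := hF.deriv.div hF hne
  obtain ⟨h, hh0, hh⟩ := hd.isExactOn_univ.with_val_at 0 0
  have hh' : ∀ z, HasDerivAt h (deriv F z / F z) z := fun z => hh z (mem_univ _)
  have hhd : Differentiable ℂ h := fun z => (hh' z).differentiableAt
  have hE : ∀ z, F z = Complex.exp (h z) := by
    intro z
    have hD : ∀ w, HasDerivAt (fun w => F w * Complex.exp (-h w)) 0 w := by
      intro w
      have := (hF w).hasDerivAt.mul (hh' w).neg.cexp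
      refine this.congr_deriv ?_
      have := hne w
      simp only [Pi.neg_apply]
      field_simp; ring
    have := is_const_of_deriv_eq_zero (fun w => (hD w).differentiableAt)
      (fun w => (hD w).deriv) z 0
    simp only [h0, hh0, neg_zero, Complex.exp_zero, mul_one, Complex.exp_neg] at this
    field_simp at this
    exact this
  have hre : ∀ z, (h z).re ≤ a * ‖z‖ ^ 2 := by
    intro z
    have := hb z
    rwa [hE, Complex.norm_exp, Real.exp_le_exp] at this
  have hn : ∀ z, z ≠ 0 → ‖h z‖ ≤ 8 * a * ‖z‖ * ‖z‖ := by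
    intro z hz
    have hp : 0 < ‖z‖ := norm_pos_iff.2 hz
    have := Complex.borelCaratheodory_zero (M := a * (2 * ‖z‖) ^ 2) (R := 2 * ‖z‖) (z := z)
      (by positivity) hhd.differentiableOn (fun w hw => by
        have h1 : ‖w‖ < 2 * ‖z‖ := by simpa using hw
        exact (hre w).trans (by gcongr)) (by positivity) (by simp; linarith) hh0
    refine this.trans (le_of_eq ?_)
    rw [show 2 * ‖z‖ - ‖z‖ = ‖z‖ by ring]; field_simp; ring
  have d1 : Differentiable ℂ (dslope h 0) := differentiableOn_univ.1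
    ((Complex.differentiableOn_dslope univ_mem).2 hhd.differentiableOn)
  have d2 : Differentiable ℂ (dslope (dslope h 0) 0) := differentiableOn_univ.1
    ((Complex.differentiableOn_dslope univ_mem).2 d1.differentiableOn)
  have s1 : ∀ z, z * dslope h 0 z = h z := fun z => by
    simpa [hh0] using sub_smul_dslope h 0 z
  have n1 : ∀ z, z ≠ 0 → ‖dslope h 0 z‖ ≤ 8 * a * ‖z‖ := fun z hz => by
    have := hn z hz
    rw [← s1, norm_mul, mul_comm] at this
    exact le_of_mul_le_mul_right this (norm_pos_iff.2 hz)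
  have z1 : dslope h 0 0 = 0 := by
    have : ‖dslope h 0 0‖ ≤ 8 * a * ‖(0 : ℂ)‖ :=
      le_of_tendsto_of_tendsto (b := 𝓝[≠] (0 : ℂ))
        ((d1.continuous.norm.tendsto 0).mono_left nhdsWithin_le_nhds)
        (((continuous_const.mul continuous_norm).tendsto 0).mono_left nhdsWithin_le_nhds)
        (eventually_nhdsWithin_of_forall fun z hz => n1 z hz)
    simpa using this
  have s2 : ∀ z, z * dslope (dslope h 0) 0 z = dslope h 0 z := fun z => by
    simpa only [z1, sub_zero, smul_eq_mul] using sub_smul_dslope (dslope h 0) 0 z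
  have bd : Bornology.IsBounded (range (dslope (dslope h 0) 0)) := by
    refine (Metric.isBounded_closedBall (x := (0 : ℂ))
      (r := max (8 * a) ‖dslope (dslope h 0) 0 0‖)).subset ?_
    rintro _ ⟨z, rfl⟩
    rw [mem_closedBall_zero_iff]
    by_cases hz : z = 0
    · rw [hz]; exact le_max_right _ _
    · have := n1 z hz
      rw [← s2, norm_mul, mul_comm] at this
      exact le_max_of_le_left (le_of_mul_le_mul_right this (norm_pos_iff.2 hz))
  refine ⟨dslope (dslope h 0) 0 0, fun z => ?_⟩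
  rw [hE, ← s1, ← s2, d2.apply_eq_apply_of_bounded bd z 0]
  congr 1; ring

lemma expint (ν₁ ν₂ : Measure ℝ) [IsProbabilityMeasure ν₁] [IsProbabilityMeasure ν₂] (v : NNReal)
    (h : ν₁ ∗ ν₂ = gaussianReal 0 v) (t : ℝ) : Integrable (fun x => Real.exp (t * x)) ν₂ := by
  have hi := integrable_exp_mul_gaussianReal (μ := 0) (v := v) t
  rw [← h, integrable_conv_iff (by fun_prop)] at hi
  obtain ⟨x, hx⟩ := hi.1.exists
  refine (hx.const_mul (Real.exp (-(t * x)))).congr (ae_of_all _ fun y => ?_)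
  simp only [← Real.exp_add]; congr 1; ring

lemma cramer (ν₁ ν₂ : Measure ℝ) [IsProbabilityMeasure ν₁] [IsProbabilityMeasure ν₂]
    (g₁ g₂ : ℝ → ℝ) (h₁ : ∀ ξ, charFun ν₁ ξ = g₁ ξ) (h₂ : ∀ ξ, charFun ν₂ ξ = g₂ ξ) (a : ℝ)
    (ha : 0 < a) (h : ∀ ξ, g₁ ξ * g₂ ξ = Real.exp (-(a * ξ ^ 2))) (hp : ∀ ξ, 0 ≤ g₁ ξ) :
    ∃ b : ℝ, ∀ ξ, g₁ ξ = Real.exp (-(b * ξ ^ 2)) := by
  let v : NNReal := ⟨2 * a, by positivity⟩
  have hv : (v : ℝ) = 2 * a := rfl
  have hc : ν₁ ∗ ν₂ = gaussianReal 0 v := by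
    refine Measure.ext_of_charFun (funext fun ξ => ?_)
    rw [charFun_conv, h₁, h₂, charFun_gaussianReal, ← Complex.ofReal_mul, h, hv]
    push_cast; congr 1; ring
  have i2 := expint ν₁ ν₂ v hc
  have i1 := expint ν₂ ν₁ v (by rw [Measure.conv_comm]; exact hc)
  have hprod : ∀ z : ℂ, complexMGF id ν₁ z * complexMGF id ν₂ z = Complex.exp (a * z ^ 2) := by
    intro z
    have e := complexMGF_id_gaussianReal (μ := 0) (v := v) z
    have hi : Integrable (fun x : ℝ => Complex.exp (z * x)) (ν₁ ∗ ν₂) := by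
      rw [hc]
      refine (integrable_exp_mul_gaussianReal (μ := 0) (v := v) z.re).mono' (by fun_prop)
        (ae_of_all _ fun x => ?_)
      simp [Complex.norm_exp]
    rw [← hc] at e
    simp only [complexMGF, id] at e ⊢
    rw [integral_conv hi] at e
    simp only [Complex.ofReal_add, mul_add, Complex.exp_add, integral_const_mul,
      integral_mul_const] at e
    rw [e, hv, ← Complex.exp_add]; congr 1; push_cast; ring
  have hD : Differentiable ℂ (complexMGF id ν₁) := fun z =>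
    (analyticAt_complexMGF (by
      rw [show integrableExpSet id ν₁ = univ from eq_univ_of_forall i1]; simp)).differentiableAt
  obtain ⟨c, hcq⟩ := quad (complexMGF id ν₁) hD (by simp [complexMGF])
    (fun z hz => Complex.exp_ne_zero _ (by rw [← hprod z, hz, zero_mul])) a ha (fun z => by
      have h1 := norm_complexMGF_le_mgf (X := id) (μ := ν₁) (z := z)
      have h2 := hprod (z.re : ℂ)
      rw [complexMGF_ofReal, complexMGF_ofReal] at h2
      have h3 : mgf id ν₁ z.re * mgf id ν₂ z.re = Real.exp (a * z.re ^ 2) := by exact_mod_cast h2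
      have h4 := one_le_mgf ν₂ g₂ h₂ i2 z.re
      have h5 : 0 ≤ mgf id ν₁ z.re := mgf_nonneg
      have h6 : z.re ^ 2 ≤ ‖z‖ ^ 2 := by
        rw [← sq_abs]; exact pow_le_pow_left₀ (abs_nonneg _) (Complex.abs_re_le_norm z) 2
      have h7 : Real.exp (a * z.re ^ 2) ≤ Real.exp (a * ‖z‖ ^ 2) := by gcongr
      nlinarith)
  refine ⟨c.re, fun ξ => ?_⟩
  have e := congrArg norm (hcq (ξ * Complex.I))
  rw [complexMGF_id_mul_I, h₁, Complex.norm_real, Real.norm_of_nonneg (hp ξ),
    Complex.norm_exp] at e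
  rw [e, mul_pow, Complex.I_sq, ← Complex.ofReal_pow]
  congr 1; simp [← Complex.ofReal_pow]

lemma inC (b : ℝ) (hb : 0 ≤ b) : InC fun ξ => b * ξ ^ 2 :=
  ⟨Real.sqrt (2 * b), 0, by simp, by simp, fun ξ => by
    rw [Real.sq_sqrt (by positivity)]; simp; ring⟩

/-- Some `L ∈ 𝓛` that is not an exponential has property (R). -/
theorem result : ∃ L : ℝ → ℝ, InL L ∧ (¬ ∃ c : ℝ, 0 < c ∧ ∀ s, 0 ≤ s → L s = Real.exp (-c * s)) ∧
    PropR L := by
  let L : ℝ → ℝ := fun s => (1 + Real.exp (-s)) / 2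
  have hinj : InjOn L (Ici 0) := fun x _ y _ h => by
    have : Real.exp (-x) = Real.exp (-y) := by simp only [L] at h; linarith
    simpa using this
  have hder : ∀ n : ℕ, iteratedDeriv (n + 1) L = fun s => (-1) ^ (n + 1) * (Real.exp (-s) / 2) := by
    intro n
    induction n with
    | zero =>
      funext s
      have := (((hasDerivAt_neg s).exp).const_add 1).div_const 2
      rw [zero_add, iteratedDeriv_one]
      exact this.deriv.trans (by ring)
    | succ n ih =>
      funext s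
      have := (((hasDerivAt_neg s).exp).div_const 2).const_mul ((-1 : ℝ) ^ (n + 1))
      rw [iteratedDeriv_succ, ih]
      exact this.deriv.trans (by ring)
  refine ⟨L, ⟨⟨by fun_prop, fun n => by fun_prop, fun n s _ => ?_⟩, fun s hs => ⟨by positivity, ?_⟩,
    hinj, by simp [L]⟩, ?_, ?_⟩
  · rcases n with _ | n
    · simp only [pow_zero, iteratedDeriv_zero, one_mul, L]; positivity
    · rw [hder, ← mul_assoc, ← mul_pow]; simp; positivity
  · have : Real.exp (-s) ≤ 1 := Real.exp_le_one_iff.2 (by linarith)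
    simp only [L]; linarith
  · rintro ⟨c, hc, h⟩
    have h1 := h (1 / c) (by positivity)
    rw [show -c * (1 / c) = -1 by field_simp] at h1
    have h2 := Real.exp_pos (-(1 / c))
    have h3 := Real.exp_neg_one_lt_d9
    simp only [L] at h1
    norm_num at h1 h2 h3 ⊢
    linarith
  · intro a ha μ₁ μ₂ _ _ f₁ f₂ c1 c2 r1 r2 hΦ
    choose s₁ hs₁ e₁ using r1
    choose s₂ hs₂ e₂ using r2
    have g1 : ∀ ξ, 2 * f₁ ξ - 1 = Real.exp (-s₁ ξ) := fun ξ => by rw [← e₁]; simp only [L]; ring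
    have g2 : ∀ ξ, 2 * f₂ ξ - 1 = Real.exp (-s₂ ξ) := fun ξ => by rw [← e₂]; simp only [L]; ring
    obtain ⟨ν₁, p1, n1⟩ := split μ₁ f₁ c1 fun ξ => by linarith [g1 ξ, Real.exp_pos (-s₁ ξ)]
    obtain ⟨ν₂, p2, n2⟩ := split μ₂ f₂ c2 fun ξ => by linarith [g2 ξ, Real.exp_pos (-s₂ ξ)]
    have hm : ∀ ξ, (2 * f₁ ξ - 1) * (2 * f₂ ξ - 1) = Real.exp (-(a * ξ ^ 2)) := by
      intro ξ
      have := hΦ ξ
      rw [Phi, ← e₁, ← e₂, hinj.leftInvOn_invFunOn (hs₁ ξ), hinj.leftInvOn_invFunOn (hs₂ ξ)] at this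
      rw [g1, g2, ← Real.exp_add, ← neg_add]
      simp only [L] at this; linarith
    obtain ⟨b₁, hb₁⟩ := cramer ν₁ ν₂ _ _ n1 n2 a ha hm fun ξ => by rw [g1]; positivity
    obtain ⟨b₂, hb₂⟩ := cramer ν₂ ν₁ _ _ n2 n1 a ha (fun ξ => by rw [mul_comm]; exact hm ξ)
      fun ξ => by rw [g2]; positivity
    have k1 : 0 ≤ b₁ := by
      have := (g1 1).symm.trans (hb₁ 1)
      have h0 : (0 : ℝ) ≤ s₁ 1 := hs₁ 1
      simp at this; linarith
    have k2 : 0 ≤ b₂ := by
      have := (g2 1).symm.trans (hb₂ 1)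
      have h0 : (0 : ℝ) ≤ s₂ 1 := hs₂ 1
      simp at this; linarith
    refine ⟨_, _, inC b₁ k1, inC b₂ k2, fun ξ => ?_, fun ξ => ?_⟩
    · have := hb₁ ξ; simp only [L]; linarith
    · have := hb₂ ξ; simp only [L]; linarith

end Pool.Agent.Results.MP_c7609e_pr.Counter
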